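import Mathlib
import Pool.Agent.H2.UltraDefs
import Pool.Agent.H2.UltraProof

open Pool.Agent.H2.Ultra

theorem Pool.Agent.Results.MP_846ee0_co.Never.result (p q : Ultrafilter ℕ+)
    (hp : ∀ n : ℕ+, p ≠ pure n) (hq : ∀ n : ℕ+, q ≠ pure n) : E1 p q ≠ E2 p q :=
  ne12 p q hp hq
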